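import Pool.Agent.H53R2.SUI
import Pool.Agent.H53R2.UB2
import Pool.Agent.H53R2.Small

set_option autoImplicit false

namespace Pool.Agent.Results.MP_1c3690_al.SolubleByFiniteGroups

/-- `G` belongs to the variety of groups defined by the laws `w = 1`, `w ∈ W`. -/
def InVariety (W : Set (FreeGroup ℕ)) (G : Type) [Group G] : Prop :=
  ∀ w ∈ W, ∀ f : ℕ → G, FreeGroup.lift f w = 1

/-- the variety defined by `W` is small: every family of pairwise non-isomorphic finitely generated
groups in it has fewer than `2^ℵ₀` members. -/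
def SmallVariety (W : Set (FreeGroup ℕ)) : Prop :=
  ∀ (ι : Type) (G : ι → Type) [∀ i, Group (G i)], (∀ i, Group.FG (G i)) →
    (∀ i, InVariety W (G i)) → (∀ i j, Nonempty (G i ≃* G j) → i = j) →
    Cardinal.mk ι < Cardinal.continuum

/-- `G` has a soluble normal subgroup of finite index. -/
def SolubleByFinite (G : Type) [Group G] : Prop :=
  ∃ S : Subgroup G, S.Normal ∧ S.FiniteIndex ∧ Group.IsSolvable ↥S

/-- `G` has no infinite strictly ascending chain of normal subgroups. -/
def MaxNormal (G : Type) [Group G] : Prop :=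
  ¬ ∃ N : ℕ → Subgroup G, (∀ n, (N n).Normal) ∧ StrictMono N

/-- In a small variety of groups (not assumed soluble, nor locally graded) every finitely generated
soluble-by-finite group satisfies the maximal condition on normal subgroups. -/
theorem result (W : Set (FreeGroup ℕ)) (hsmall : SmallVariety W) (G : Type) [Group G]
    (hfg : Group.FG G) (hG : InVariety W G) (hsf : SolubleByFinite G) : MaxNormal G := by
  obtain ⟨S, hS, hfi, hsol⟩ := hsf
  obtain ⟨u, hu⟩ := H53R2.exists_UI_small hsmall
  have hSfg : Group.FG ↥S := Subgroup.fg_of_index_ne_zero S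
  obtain ⟨d, hd⟩ := hsol.solvable
  have hmaxS := (H53R2.U_main u d ↥S ((hu G hG).subgroup S) hd).2
  have hmax : H53R2.MaxN G := H53R2.maxN_of_finiteIndex S hmaxS
  rintro ⟨N, hN, hmono⟩
  rw [H53R2.K_maxN_iff] at hmax
  obtain ⟨n, hn⟩ := hmax N hmono.monotone hN
  exact (hmono (Nat.lt_succ_self n)).ne (hn (n + 1) (Nat.le_succ n)).symm

end Pool.Agent.Results.MP_1c3690_al.SolubleByFiniteGroups
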